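import Pool.Agent.Q4.SPC.Stm

/-! Project SPC (helper4), job SG: the decomposition of a matrix at a place. -/

set_option autoImplicit false

open IsDedekindDomain NumberField Matrix Q4.GLC Q4.SPC
open Classical

noncomputable section

namespace Pool.Agent.Q238.SPC

variable {F : Type} [Field F] [NumberField F] {n : ℕ}

/-- the idempotent adele of the place `v` -/
def idem (v : Pl F) : Af F :=
  (⟨fun w => if w = v then (1 : w.adicCompletion F) else 0, Filter.Eventually.of_forall fun w => by
      show (if w = v then (1 : w.adicCompletion F) else 0) ∈ w.adicCompletionIntegers F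
      split_ifs
      · exact one_mem _
      · exact zero_mem _⟩ : Af F)

theorem idem_apply (v w : Pl F) :
    (idem v : Af F) w = if w = v then (1 : w.adicCompletion F) else 0 := rfl

theorem idem_self (v : Pl F) : (idem v : Af F) v = 1 := by rw [idem_apply, if_pos rfl]

theorem idem_ne {v w : Pl F} (h : w ≠ v) : (idem v : Af F) w = 0 := by rw [idem_apply, if_neg h]

theorem idem_mul (v : Pl F) : (idem v : Af F) * idem v = idem v := by
  apply FiniteAdeleRing.ext
  intro w
  show (idem v : Af F) w * (idem v : Af F) w = (idem v : Af F) w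
  by_cases h : w = v
  · subst h; rw [idem_self, one_mul]
  · rw [idem_ne h, zero_mul]

theorem sp_ext {x y : Sp n (Af F)} (h : ∀ w, Q4.SPC.comp F n w x = Q4.SPC.comp F n w y) : x = y := by
  refine Subtype.ext (Matrix.ext fun i j => ?_)
  apply FiniteAdeleRing.ext
  intro w
  rw [← Q4.SPC.comp_apply w x, ← Q4.SPC.comp_apply w y, h]

/-- the part of `g` at the place `v` -/
def part (v : Pl F) (g : Sp n (Af F)) : Sp n (Af F) :=
  ⟨(1 - idem v) • (1 : Matrix (Fin n ⊕ Fin n) (Fin n ⊕ Fin n) (Af F)) + (idem v) • g.1, by
    have hg := SymplecticGroup.mem_iff.1 g.2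
    rw [SymplecticGroup.mem_iff]
    have e := idem_mul (F := F) v
    have h1 : ((1 : Af F) - idem v) * (1 - idem v) = 1 - idem v := by
      have : ((1 : Af F) - idem v) * (1 - idem v) = 1 - 2 * idem v + idem v * idem v := by ring
      rw [this, e]; ring
    have h2 : ((1 : Af F) - idem v) * idem v = 0 := by rw [sub_mul, e, one_mul, sub_self]
    have h3 : (idem v : Af F) * (1 - idem v) = 0 := by rw [mul_sub, e, mul_one, sub_self]
    simp only [transpose_add, transpose_smul, transpose_one, Matrix.add_mul,
      Matrix.mul_add, Matrix.smul_mul, Matrix.mul_smul, hg,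
      Matrix.one_mul, Matrix.mul_one, smul_add]
    simp only [smul_smul, h1, h2, h3, e, zero_smul, add_zero, zero_add]
    rw [← add_smul, sub_add_cancel, one_smul]⟩

theorem part_entry (v w : Pl F) (g : Sp n (Af F)) (i j : Fin n ⊕ Fin n) :
    ((part v g).1 i j) w = (1 - (idem v : Af F) w) *
      (((1 : Matrix (Fin n ⊕ Fin n) (Fin n ⊕ Fin n) (Af F)) i j) w) +
      (idem v : Af F) w * ((g.1 i j) w) := rfl

theorem comp_part_self (v : Pl F) (g : Sp n (Af F)) : Q4.SPC.comp F n v (part v g) = Q4.SPC.comp F n v g := by
  refine Subtype.ext (Matrix.ext fun i j => ?_)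
  rw [Q4.SPC.comp_apply, Q4.SPC.comp_apply, part_entry, idem_self, sub_self, zero_mul, zero_add, one_mul]

theorem atPl_part (v : Pl F) (g : Sp n (Af F)) : AtPl v (part v g) := by
  intro w hw i j
  rw [part_entry, idem_ne hw, sub_zero, one_mul, zero_mul, add_zero]

theorem sg : SG := by
  intro F _ _ n v g hg
  refine ⟨g * (part v g)⁻¹, part v g, ?_, by group, ?_⟩
  · rw [mem_KS]
    refine ⟨?_, atPl_part v g⟩
    rw [mem_US]
    intro i j w
    rw [Nat.cast_one]
    change Valued.v (((part v g).1 i j) w -
      ((1 : Matrix (Fin n ⊕ Fin n) (Fin n ⊕ Fin n) (Af F)) i j) w) ≤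
      Valued.v (1 : w.adicCompletion F)
    rw [map_one]
    by_cases hw : w = v
    · subst hw
      rw [part_entry, idem_self, sub_self, zero_mul, zero_add, one_mul]
      refine (Valuation.map_sub _ _ _).trans (max_le (hg i j) ?_)
      rw [Matrix.one_apply]
      split_ifs
      · change Valued.v (1 : w.adicCompletion F) ≤ 1
        rw [map_one]
      · change Valued.v (0 : w.adicCompletion F) ≤ 1
        rw [map_zero]; exact zero_le_one
    · rw [atPl_part v g w hw i j, sub_self, map_zero]
      exact zero_le_one
  · intro h hh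
    apply sp_ext
    intro w
    rw [map_mul (Q4.SPC.comp F n w) (g * (part v g)⁻¹) h,
      map_mul (Q4.SPC.comp F n w) h (g * (part v g)⁻¹)]
    by_cases hw : w = v
    · subst hw
      have e1 : Q4.SPC.comp F n w (g * (part w g)⁻¹) = 1 := by
        rw [map_mul, map_inv, comp_part_self, mul_inv_cancel]
      rw [e1, one_mul, mul_one]
    · rw [atPl_iff.1 hh w hw, one_mul, mul_one]

end Pool.Agent.Q238.SPC

end
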